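import Pool.Agent.Helper54_QE.Defs

/-!
# Module TRACE: the trace-Plancherel identity
-/

set_option autoImplicit false

open scoped InnerProductSpace ComplexConjugate Topology ENNReal
open MeasureTheory Filter

noncomputable section

namespace Pool.Agent.QE

open Pool.Agent.Anderson Pool.Agent.Helper54.Bal

variable {d : ℕ}

namespace Tr

theorem mp_tau (μ : Measure ℝ) [IsProbabilityMeasure μ] (a : Site d) :
    MeasurePreserving (tau a) (PP d μ) (PP d μ) := by
  refine ⟨?_, ?_⟩
  · unfold tau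
    fun_prop
  · exact Measure.map_infinitePi_infinitePi_of_inj (P := fun _ : Site d => μ)
      (f := fun x : Site d => x + a) (add_left_injective a)

theorem continuous_coord (x : Site d) : Continuous (fun f : L2 d => f x) :=
  (lp.evalCLM ℂ (fun _ : Site d => ℂ) 2 x).continuous

theorem hasSum_del (f : L2 d) : HasSum (fun x => f x • del x) f := by
  have h := lp.hasSum_single (p := 2) (by norm_num) f
  have e : (fun x => f x • del x) = fun x => lp.single 2 x (f x) := by
    funext x
    ext y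
    rw [lp.coeFn_smul, Pi.smul_apply, del_apply, lp.single_apply, Pi.single_apply]
    split_ifs with h
    · subst h; simp
    · simp
  rw [e]
  exact h

section meas
variable {Ω : Type*} [MeasurableSpace Ω]

theorem sm_apply {D : Ω → Op d} (hD : ∀ y, StronglyMeasurable (fun ω => D ω (del y)))
    {u : Ω → L2 d} (hu : StronglyMeasurable u) : StronglyMeasurable (fun ω => D ω (u ω)) := by
  have h1 : ∀ s : Finset (Site d),
      StronglyMeasurable (fun ω => ∑ y ∈ s, u ω y • D ω (del y)) := by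
    intro s
    refine Finset.stronglyMeasurable_fun_sum s fun y _ => ?_
    exact ((continuous_coord y).comp_stronglyMeasurable hu).smul (hD y)
  refine stronglyMeasurable_of_tendsto (u := (atTop : Filter (Finset (Site d)))) h1 ?_
  rw [tendsto_pi_nhds]
  intro ω
  have h2 := (hasSum_del (u ω)).mapL (D ω)
  have h3 : (fun y => D ω (u ω y • del y)) = fun y => u ω y • D ω (del y) := by
    funext y; rw [map_smul]
  rw [h3] at h2
  exact h2

theorem sm_of_coord {u : Ω → L2 d} (hu : ∀ x, Measurable (fun ω => u ω x)) :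
    StronglyMeasurable u := by
  have h1 : ∀ s : Finset (Site d),
      StronglyMeasurable (fun ω => ∑ y ∈ s, u ω y • (del y : L2 d)) := by
    intro s
    refine Finset.stronglyMeasurable_fun_sum s fun y _ => ?_
    exact (hu y).stronglyMeasurable.smul_const _
  refine stronglyMeasurable_of_tendsto (u := (atTop : Filter (Finset (Site d)))) h1 ?_
  rw [tendsto_pi_nhds]
  intro ω
  exact hasSum_del (u ω)

theorem measurable_coord {u : Ω → L2 d} (hu : StronglyMeasurable u) (x : Site d) :
    Measurable (fun ω => u ω x) :=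
  ((continuous_coord x).comp_stronglyMeasurable hu).measurable

end meas

theorem enorm_sq_tsum (f : L2 d) : ‖f‖ₑ ^ 2 = ∑' x, ‖f x‖ₑ ^ 2 := by
  have e : ∀ {X : Type} [SeminormedAddCommGroup X] (v : X), ‖v‖ₑ ^ 2 = ENNReal.ofReal (‖v‖ ^ 2) := by
    intro X _ v
    rw [ENNReal.ofReal_pow (norm_nonneg _), ofReal_norm]
  rw [e, L2.norm_sq, ENNReal.ofReal_tsum_of_nonneg (fun x => by positivity) (L2.summable_sq f)]
  exact tsum_congr fun x => (e _).symm

theorem adj_coord (T : Op d) (f : L2 d) (y : Site d) :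
    ContinuousLinearMap.adjoint T f y = ⟪T (del y), f⟫_ℂ := by
  rw [← inner_del_left y, ContinuousLinearMap.adjoint_inner_right]

theorem adj_del_coord (T : Op d) (x y : Site d) :
    ContinuousLinearMap.adjoint T (del x) y = conj (T (del y) x) := by
  rw [adj_coord, inner_del_right]

theorem shift_del (a x : Site d) : shift a (del x) = del (x - a) := by
  ext y
  rw [shift_apply, del_apply, del_apply]
  congr 1
  exact propext ⟨fun h => by rw [← h]; abel, fun h => by rw [h]; abel⟩

/-- trace identity for covariant families -/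
theorem trace_gen (μ : Measure ℝ) [IsProbabilityMeasure μ] {T : Cfg d → Op d}
    (hm : ∀ x y : Site d, Measurable fun V => T V (del x) y)
    (hc : ∀ (a : Site d) (V : Cfg d) (f : L2 d), T (tau a V) (shift a f) = shift a (T V f))
    (x : Site d) :
    ∫⁻ V, ‖T V (del x)‖ₑ ^ 2 ∂(PP d μ) =
      ∫⁻ V, ‖ContinuousLinearMap.adjoint (T V) (del 0)‖ₑ ^ 2 ∂(PP d μ) := by
  have e1 : ∀ V : Cfg d, ‖T V (del x)‖ₑ ^ 2 = ∑' y, ‖T V (del x) y‖ₑ ^ 2 := fun V =>
    enorm_sq_tsum _
  have e2 : ∀ V : Cfg d, ‖ContinuousLinearMap.adjoint (T V) (del 0)‖ₑ ^ 2 =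
      ∑' y, ‖T V (del y) 0‖ₑ ^ 2 := by
    intro V
    rw [enorm_sq_tsum]
    refine tsum_congr fun y => ?_
    rw [adj_del_coord]
    congr 1
    rw [← ofReal_norm, ← ofReal_norm, Complex.norm_conj]
  simp only [e1, e2]
  have hm1 : ∀ x y, Measurable fun V => ‖T V (del x) y‖ₑ ^ 2 := fun x y =>
    (hm x y).enorm.pow_const 2
  rw [lintegral_tsum (fun y => (hm1 x y).aemeasurable),
    lintegral_tsum (fun y => (hm1 y 0).aemeasurable),
    ← (Equiv.subLeft x).tsum_eq (fun y => ∫⁻ V, ‖T V (del y) 0‖ₑ ^ 2 ∂(PP d μ))]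
  refine tsum_congr fun y => ?_
  have h0 := (mp_tau μ y).lintegral_comp (hm1 (x - y) 0)
  rw [Equiv.subLeft_apply, ← h0]
  refine lintegral_congr fun V => ?_
  have h1 := hc y V (del x)
  rw [shift_del] at h1
  rw [h1, shift_apply, zero_add]

theorem G_cov {z : ℂ} (hz : z.im ≠ 0) (a : Site d) (V : Cfg d) (f : L2 d) :
    G (tau a V) z (shift a f) = shift a (G V z f) := by
  symm
  apply G_unique hz
  intro x
  have h := G_eq (V := V) hz f (x + a)
  have hl : lap (⇑(shift a (G V z f))) x = lap (G V z f) (x + a) := by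
    unfold lap
    simp only [shift_apply]
    refine Finset.sum_congr rfl fun i _ => ?_
    rw [add_right_comm, sub_add_eq_add_sub]
  rw [hl, shift_apply, shift_apply]
  exact h

theorem sm_adj {D : Cfg d → Op d} (hD : Cov D) :
    StronglyMeasurable fun V => ContinuousLinearMap.adjoint (D V) (del 0) := by
  apply sm_of_coord
  intro y
  simp only [adj_del_coord]
  exact Complex.continuous_conj.measurable.comp (measurable_coord (hD.meas (del y)) 0)

theorem sm_G {ε : ℝ} (hε : ε ≠ 0) {u : Cfg d → L2 d} (hu : StronglyMeasurable u) :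
    StronglyMeasurable fun p : Cfg d × ℝ => G p.1 (zz ε p.2) (u p.1) := by
  have h1 : StronglyMeasurable fun p : Cfg d × ℝ => p.1 := measurable_fst.stronglyMeasurable
  have h2 : StronglyMeasurable fun p : Cfg d × ℝ => p.2 := measurable_snd.stronglyMeasurable
  have h3 : StronglyMeasurable fun p : Cfg d × ℝ => u p.1 := hu.comp_measurable measurable_fst
  have h4 : StronglyMeasurable fun p : Cfg d × ℝ => (p.1, p.2, u p.1) :=
    h1.prodMk (h2.prodMk h3)
  have h5 := continuous_G (d := d) hε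
  have h6 := h5.comp_stronglyMeasurable h4
  exact h6

/-- Plancherel for both signs of `ε` -/
theorem plancherel (V : Cfg d) {ε : ℝ} (hε : ε ≠ 0) (f : L2 d) :
    ∫⁻ E : ℝ, ENNReal.ofReal |ε| * ‖G V (conj (zz ε E)) f‖ₑ ^ 2 =
      ENNReal.ofReal Real.pi * ‖f‖ₑ ^ 2 := by
  have hz : ∀ E : ℝ, (zz |ε| E).im ≠ 0 := fun E => by rw [zz_im]; exact abs_ne_zero.2 hε
  have h0 : 0 < |ε| := abs_pos.2 hε
  have e : ∀ {X : Type} [SeminormedAddCommGroup X] (v : X), ‖v‖ₑ ^ 2 = ENNReal.ofReal (‖v‖ ^ 2) := by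
    intro X _ v
    rw [ENNReal.ofReal_pow (norm_nonneg _), ofReal_norm]
  have hn : ∀ E : ℝ, ‖G V (conj (zz ε E)) f‖ = ‖G V (zz |ε| E) f‖ := by
    intro E
    rcases le_or_gt 0 ε with h | h
    · rw [abs_of_nonneg h]
      exact (isRes_G V).norm_conj (by rw [zz_im]; exact hε) f
    · have : conj (zz ε E) = zz |ε| E := by
        rw [abs_of_neg h]; unfold zz; simp
      rw [this]
  have hi := (isRes_G V).integral_sq h0 f
  have hint := (isRes_G V).integrable_sq h0 f
  rw [lintegral_const_mul' _ _ ENNReal.ofReal_ne_top]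
  have h1 : ∫⁻ E : ℝ, ‖G V (conj (zz ε E)) f‖ₑ ^ 2 =
      ENNReal.ofReal (Real.pi / |ε| * ‖f‖ ^ 2) := by
    rw [← hi, ofReal_integral_eq_lintegral_ofReal hint
      (Eventually.of_forall fun E => by positivity)]
    refine lintegral_congr fun E => ?_
    rw [e, hn]
  rw [h1, e, ← ENNReal.ofReal_mul (abs_nonneg _), ← ENNReal.ofReal_mul Real.pi_pos.le]
  congr 1
  field_simp

end Tr

open Tr in
theorem trace : TraceStatement := by
  intro d μ _ D hD x ε hε
  have hz : ∀ E : ℝ, (zz ε E).im ≠ 0 := fun E => by rw [zz_im]; exact hε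
  -- measurability
  have hG : ∀ x : Site d, StronglyMeasurable fun p : Cfg d × ℝ => G p.1 (zz ε p.2) (del x) :=
    fun x => sm_G hε (u := fun _ => del x) stronglyMeasurable_const
  have hDG : ∀ x : Site d,
      StronglyMeasurable fun p : Cfg d × ℝ => D p.1 (G p.1 (zz ε p.2) (del x)) := fun x =>
    sm_apply (D := fun p : Cfg d × ℝ => D p.1)
      (fun y => (hD.meas (del y)).comp_measurable measurable_fst) (hG x)
  have hA := sm_adj hD
  have hzc : ∀ E : ℝ, conj (zz ε E) = zz (-ε) E := fun E => by unfold zz; simp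
  have hGA : StronglyMeasurable fun p : Cfg d × ℝ =>
      G p.1 (conj (zz ε p.2)) (ContinuousLinearMap.adjoint (D p.1) (del 0)) := by
    simp only [hzc]
    exact sm_G (neg_ne_zero.2 hε) hA
  -- fixed energy
  have key : ∀ E : ℝ, ∫⁻ V, ‖D V (G V (zz ε E) (del x))‖ₑ ^ 2 ∂(PP d μ) =
      ∫⁻ V, ‖G V (conj (zz ε E)) (ContinuousLinearMap.adjoint (D V) (del 0))‖ₑ ^ 2
        ∂(PP d μ) := by
    intro E
    have h1 := trace_gen μ (T := fun V => (D V).comp (G V (zz ε E))) (fun x y => by
      simp only [ContinuousLinearMap.comp_apply]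
      exact measurable_coord ((hDG x).comp_measurable
        (measurable_id.prodMk (measurable_const (a := E)))) y) (fun a V f => by
      simp only [ContinuousLinearMap.comp_apply]
      rw [G_cov (hz E), hD.cov]) x
    simp only [ContinuousLinearMap.comp_apply] at h1
    rw [h1]
    refine lintegral_congr fun V => ?_
    congr 2
    rw [ContinuousLinearMap.adjoint_comp, ContinuousLinearMap.comp_apply]
    refine ext_inner_left ℂ fun v => ?_
    rw [ContinuousLinearMap.adjoint_inner_right, (isRes_G V).adj _ (hz E)]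
  have hswap1 : ∫⁻ V, (∫⁻ E : ℝ, ENNReal.ofReal |ε| * ‖D V (G V (zz ε E) (del x))‖ₑ ^ 2)
      ∂(PP d μ) = ∫⁻ E : ℝ, ∫⁻ V, ENNReal.ofReal |ε| * ‖D V (G V (zz ε E) (del x))‖ₑ ^ 2
        ∂(PP d μ) := by
    apply lintegral_lintegral_swap
    exact (((hDG x).enorm.pow_const 2).const_mul _).aemeasurable
  have hswap2 : ∫⁻ E : ℝ, ∫⁻ V, ENNReal.ofReal |ε| *
      ‖G V (conj (zz ε E)) (ContinuousLinearMap.adjoint (D V) (del 0))‖ₑ ^ 2 ∂(PP d μ) =
      ∫⁻ V, (∫⁻ E : ℝ, ENNReal.ofReal |ε| *
        ‖G V (conj (zz ε E)) (ContinuousLinearMap.adjoint (D V) (del 0))‖ₑ ^ 2) ∂(PP d μ) := by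
    symm
    apply lintegral_lintegral_swap
    exact ((hGA.enorm.pow_const 2).const_mul _).aemeasurable
  rw [hswap1]
  have h2 : ∀ E : ℝ, ∫⁻ V, ENNReal.ofReal |ε| * ‖D V (G V (zz ε E) (del x))‖ₑ ^ 2 ∂(PP d μ) =
      ∫⁻ V, ENNReal.ofReal |ε| *
        ‖G V (conj (zz ε E)) (ContinuousLinearMap.adjoint (D V) (del 0))‖ₑ ^ 2 ∂(PP d μ) := by
    intro E
    rw [lintegral_const_mul' _ _ ENNReal.ofReal_ne_top,
      lintegral_const_mul' _ _ ENNReal.ofReal_ne_top, key]
  simp only [h2]
  rw [hswap2]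
  simp only [plancherel _ hε]
  rw [lintegral_const_mul' _ _ ENNReal.ofReal_ne_top]
  congr 1
  exact (trace_gen μ (fun x y => measurable_coord (hD.meas (del x)) y) hD.cov 0).symm

end Pool.Agent.QE
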