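import Pool.Agent.Helper54_QE.Defs

/-!
# Module TIGHT: the Poisson formula for the square root of a Herglotz function
-/

set_option autoImplicit false

open scoped InnerProductSpace ComplexConjugate Topology ENNReal
open MeasureTheory Filter

noncomputable section

namespace Pool.Agent.QE

open Pool.Agent.Anderson Pool.Agent.Helper54.Bal

/-- Poisson formula for bounded holomorphic functions on the upper half plane, on horizontal
lines -/
theorem poisson_line {g : ℂ → ℂ} {ε M : ℝ} (hε : 0 < ε)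
    (hd : ∀ z : ℂ, 0 < z.im → DifferentiableAt ℂ g z)
    (hb : ∀ z : ℂ, ε ≤ z.im → ‖g z‖ ≤ M) :
    Integrable (fun E : ℝ => g (zz ε E) * (((1 + E ^ 2)⁻¹ : ℝ) : ℂ)) ∧
      ∫ E : ℝ, g (zz ε E) * (((1 + E ^ 2)⁻¹ : ℝ) : ℂ) = Real.pi * g (zz (1 + ε) 0) := by
  set z0 : ℂ := zz (1 + ε) 0 with hz0
  have hz0im : z0.im = 1 + ε := by rw [hz0, zz_im]
  set η : ℝ := min ε 1 with hη
  have hη0 : 0 < η := lt_min hε one_pos
  set a : ℝ := ε - η with ha
  have ha0 : 0 ≤ a := by rw [ha, sub_nonneg]; exact min_le_left _ _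
  have ha1 : η ≤ 1 := min_le_right _ _
  have hM : 0 ≤ M := (norm_nonneg _).trans (hb z0 (by rw [hz0im]; linarith))
  -- the slope
  have hds : DifferentiableOn ℂ (dslope g z0) {z : ℂ | 0 < z.im} := by
    rw [Complex.differentiableOn_dslope]
    · exact fun z hz => (hd z hz).differentiableWithinAt
    · refine IsOpen.mem_nhds (isOpen_lt continuous_const Complex.continuous_im) ?_
      change 0 < z0.im
      rw [hz0im]; linarith
  have hds' : ∀ z : ℂ, 0 < z.im → DifferentiableAt ℂ (dslope g z0) z := fun z hz =>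
    hds.differentiableAt ((isOpen_lt continuous_const Complex.continuous_im).mem_nhds hz)
  obtain ⟨K1, hK1⟩ : ∃ K : ℝ, ∀ z ∈ Metric.closedBall z0 1, ‖dslope g z0 z‖ ≤ K := by
    refine (isCompact_closedBall z0 1).exists_bound_of_continuousOn ?_
    intro z hz
    refine (hds' z ?_).continuousAt.continuousWithinAt
    have h1 := Complex.abs_im_le_norm (z - z0)
    rw [Metric.mem_closedBall, dist_eq_norm] at hz
    have h2 := neg_abs_le ((z - z0).im)
    rw [Complex.sub_im, hz0im] at h2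
    rw [Complex.sub_im, hz0im] at h1
    linarith
  have hK1' : 0 ≤ K1 := (norm_nonneg _).trans (hK1 z0 (by simp))
  have hbd : ∀ z : ℂ, ε ≤ z.im → ‖dslope g z0 z‖ ≤ (2 * K1 + 4 * M) / (1 + ‖z - z0‖) := by
    intro z hz
    have hr := norm_nonneg (z - z0)
    rw [le_div_iff₀ (by linarith)]
    by_cases h1 : ‖z - z0‖ ≤ 1
    · have h2 := hK1 z (by rwa [Metric.mem_closedBall, dist_eq_norm])
      have h3 := norm_nonneg (dslope g z0 z)
      nlinarith
    · push Not at h1
      have hne : z ≠ z0 := by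
        rintro rfl
        simp at h1
        linarith
      have h3 : ‖g z - g z0‖ ≤ 2 * M := by
        refine (norm_sub_le _ _).trans ?_
        linarith [hb z hz, hb z0 (by rw [hz0im]; linarith)]
      rw [dslope_of_ne _ hne, slope_def_module, norm_smul, norm_inv]
      have h4 : ‖z - z0‖⁻¹ * ‖z - z0‖ = 1 := inv_mul_cancel₀ (by linarith)
      have h5 : ‖z - z0‖⁻¹ ≤ 1 := inv_le_one_of_one_le₀ h1.le
      have h6 : 0 ≤ ‖z - z0‖⁻¹ := by positivity
      have h7 := norm_nonneg (g z - g z0)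
      calc ‖z - z0‖⁻¹ * ‖g z - g z0‖ * (1 + ‖z - z0‖)
          = ‖z - z0‖⁻¹ * ‖g z - g z0‖ + (‖z - z0‖⁻¹ * ‖z - z0‖) * ‖g z - g z0‖ := by ring
        _ ≤ 1 * ‖g z - g z0‖ + 1 * ‖g z - g z0‖ := by rw [h4]; gcongr
        _ ≤ 2 * K1 + 4 * M := by linarith
  -- the function to which the contour shift applies
  set R : ℂ → ℂ := fun z => dslope g z0 (z + a * Complex.I) /
    (z + a * Complex.I - z0 + 2 * Complex.I) with hR
  have him : ∀ z : ℂ, (z + a * Complex.I).im = z.im + a := by intro z; simp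
  have him2 : ∀ z : ℂ, (z + a * Complex.I - z0 + 2 * Complex.I).im = z.im + 1 - η := by
    intro z
    simp only [Complex.add_im, Complex.sub_im, hz0im, Complex.mul_im, Complex.ofReal_re,
      Complex.I_im, Complex.ofReal_im, Complex.I_re, mul_one, mul_zero, add_zero,
      Complex.re_ofNat, Complex.im_ofNat]
    rw [ha]; ring
  have hne2 : ∀ z : ℂ, 0 < z.im → z + a * Complex.I - z0 + 2 * Complex.I ≠ 0 := by
    intro z hz h0
    have := congrArg Complex.im h0
    rw [him2] at this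
    simp at this
    linarith
  have hRd : ∀ z : ℂ, 0 < z.im → DifferentiableAt ℂ R z := by
    intro z hz
    have h1 : DifferentiableAt ℂ (fun z : ℂ => z + a * Complex.I) z :=
      differentiableAt_id.add_const _
    refine DifferentiableAt.div ?_ ((h1.sub_const _).add_const _) (hne2 z hz)
    exact DifferentiableAt.comp z (hds' (z + a * Complex.I) (by rw [him]; linarith)) h1
  have hRb : ∀ z : ℂ, η ≤ z.im → ‖R z‖ ≤
      (4 * (2 * K1 + 4 * M) * (1 + ‖z0 - a * Complex.I‖) ^ 2) / ‖z‖ ^ 2 := by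
    intro z hz
    have hzi : 0 < z.im := hη0.trans_le hz
    have hzn : 0 < ‖z‖ := by
      refine norm_pos_iff.2 fun h0 => ?_
      rw [h0] at hzi; simp at hzi
    set u : ℂ := z + a * Complex.I with hu
    have hui : ε ≤ u.im := by rw [hu, him, ha]; linarith
    have h1 := hbd u hui
    set r : ℝ := ‖u - z0‖ with hr
    have hr0 : 0 ≤ r := norm_nonneg _
    have h2 : 1 ≤ ‖u - z0 + 2 * Complex.I‖ := by
      have := Complex.im_le_norm (u - z0 + 2 * Complex.I)
      rw [hu, him2, ← hu] at this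
      linarith
    have h3 : r - 2 ≤ ‖u - z0 + 2 * Complex.I‖ := by
      have h4 : u - z0 = (u - z0 + 2 * Complex.I) - 2 * Complex.I := by ring
      have h5 := norm_sub_le (u - z0 + 2 * Complex.I) (2 * Complex.I)
      rw [← h4, norm_mul, Complex.norm_I] at h5
      simp at h5
      linarith
    have h6 : (1 + r) / 4 ≤ ‖u - z0 + 2 * Complex.I‖ := by linarith
    have h7 : ‖z‖ ≤ (1 + ‖z0 - a * Complex.I‖) * (1 + r) := by
      have h8 : z = (u - z0) + (z0 - a * Complex.I) := by rw [hu]; ring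
      have h9 := norm_add_le (u - z0) (z0 - a * Complex.I)
      rw [← h8] at h9
      nlinarith [norm_nonneg (z0 - a * Complex.I)]
    have h10 : ‖R z‖ = ‖dslope g z0 u‖ / ‖u - z0 + 2 * Complex.I‖ := by
      rw [hR]; simp only; rw [norm_div]
    rw [h10, le_div_iff₀ (by positivity)]
    have h11 : ‖dslope g z0 u‖ / ‖u - z0 + 2 * Complex.I‖ ≤
        ((2 * K1 + 4 * M) / (1 + r)) / ((1 + r) / 4) := by gcongr
    have h12 : ‖z‖ ^ 2 ≤ ((1 + ‖z0 - a * Complex.I‖) * (1 + r)) ^ 2 := by gcongr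
    calc ‖dslope g z0 u‖ / ‖u - z0 + 2 * Complex.I‖ * ‖z‖ ^ 2
        ≤ ((2 * K1 + 4 * M) / (1 + r)) / ((1 + r) / 4) *
          ((1 + ‖z0 - a * Complex.I‖) * (1 + r)) ^ 2 := by gcongr
      _ = 4 * (2 * K1 + 4 * M) * (1 + ‖z0 - a * Complex.I‖) ^ 2 := by
        have : 1 + r ≠ 0 := by positivity
        field_simp
  obtain ⟨hi, hint⟩ := integral_horizontal hη0 (by positivity) hRd hRb
  have hRE : ∀ E : ℝ, R (zz η E) = (g (zz ε E) - g z0) * (((1 + E ^ 2)⁻¹ : ℝ) : ℂ) := by
    intro E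
    have e1 : zz η E + a * Complex.I = zz ε E := by
      unfold zz; rw [ha]; push_cast; ring
    have e2 : zz ε E - z0 = E - Complex.I := by
      rw [hz0]; unfold zz; push_cast; ring
    have hEI : (E : ℂ) - Complex.I ≠ 0 := by
      intro h0
      have := congrArg Complex.im h0
      simp at this
    have hEI' : (E : ℂ) + Complex.I ≠ 0 := by
      intro h0
      have := congrArg Complex.im h0
      simp at this
    have hne : zz ε E ≠ z0 := by
      rw [← sub_ne_zero, e2]; exact hEI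
    have e3 : (((1 + E ^ 2)⁻¹ : ℝ) : ℂ) = ((E : ℂ) - Complex.I)⁻¹ * ((E : ℂ) + Complex.I)⁻¹ := by
      rw [← mul_inv]
      push_cast
      congr 1
      have := Complex.I_sq
      ring_nf
      rw [this]; ring
    rw [hR]
    simp only
    rw [e1, e2, dslope_of_ne _ hne, slope_def_module, e2, smul_eq_mul, e3, div_eq_mul_inv]
    have e4 : (E : ℂ) - Complex.I + 2 * Complex.I = E + Complex.I := by ring
    rw [e4]
    ring
  simp only [hRE] at hi hint
  have hc : Integrable fun E : ℝ => g z0 * (((1 + E ^ 2)⁻¹ : ℝ) : ℂ) :=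
    (integrable_inv_one_add_sq.ofReal).const_mul _
  have hsum : (fun E : ℝ => g (zz ε E) * (((1 + E ^ 2)⁻¹ : ℝ) : ℂ)) = fun E =>
      (g (zz ε E) - g z0) * (((1 + E ^ 2)⁻¹ : ℝ) : ℂ) + g z0 * (((1 + E ^ 2)⁻¹ : ℝ) : ℂ) := by
    funext E; ring
  rw [hsum]
  refine ⟨hi.add hc, ?_⟩
  have hpi : ∫ E : ℝ, (((1 + E ^ 2)⁻¹ : ℝ) : ℂ) = (Real.pi : ℂ) := by
    have h := integral_ofReal (𝕜 := ℂ) (f := fun E : ℝ => (1 + E ^ 2)⁻¹) (μ := volume)
    rw [integral_univ_inv_one_add_sq] at h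
    exact h
  rw [integral_add hi hc, hint, zero_add, integral_const_mul, hpi]
  ring

/-- the square root of a number with positive real part -/
theorem re_sqrt {u : ℂ} (hu : 0 < u.re) :
    Real.sqrt ‖u‖ ≤ Real.sqrt 2 * (u ^ (((2 : ℕ) : ℂ)⁻¹)).re ∧
      ‖u ^ (((2 : ℕ) : ℂ)⁻¹)‖ = Real.sqrt ‖u‖ := by
  have hu0 : u ≠ 0 := by rintro rfl; simp at hu
  set s : ℂ := u ^ (((2 : ℕ) : ℂ)⁻¹) with hs
  have hsq : s ^ 2 = u := Complex.cpow_nat_inv_pow u two_ne_zero
  have hnorm : ‖s‖ = Real.sqrt ‖u‖ := by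
    rw [← hsq, norm_pow, Real.sqrt_sq (norm_nonneg _)]
  have hre : 0 < s.re := by
    rw [hs, Complex.cpow_def_of_ne_zero hu0, Complex.exp_re]
    have h1 : (Complex.log u * ((2 : ℕ) : ℂ)⁻¹).im = Complex.arg u / 2 := by
      have : (((2 : ℕ) : ℂ)⁻¹) = ((1 / 2 : ℝ) : ℂ) := by push_cast; norm_num
      rw [this, Complex.mul_im, Complex.ofReal_im, Complex.ofReal_re, Complex.log_im]
      ring
    rw [h1]
    have h2 := Complex.abs_arg_le_pi_div_two_iff.2 hu.le
    rw [abs_le] at h2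
    have h3 : 0 < Real.cos (Complex.arg u / 2) := by
      apply Real.cos_pos_of_mem_Ioo
      constructor <;> linarith [Real.pi_pos]
    positivity
  have h1 : s.re ^ 2 - s.im ^ 2 = u.re := by
    rw [← hsq, sq s, Complex.mul_re]; ring
  have h2 : ‖s‖ ^ 2 = s.re ^ 2 + s.im ^ 2 := by
    rw [← Complex.normSq_eq_norm_sq, Complex.normSq_apply]; ring
  refine ⟨?_, hnorm⟩
  rw [← hnorm]
  have h3 : ‖s‖ ^ 2 ≤ (Real.sqrt 2 * s.re) ^ 2 := by
    rw [mul_pow, Real.sq_sqrt (by norm_num), h2]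
    linarith
  have h4 : 0 ≤ Real.sqrt 2 * s.re := by positivity
  exact (pow_le_pow_iff_left₀ (norm_nonneg _) h4 two_ne_zero).1 h3

theorem tight : TightStatement := by
  intro d V w ε hε
  by_cases hw : w = 0
  · subst hw
    simp
  have hG := isRes_G V
  set F : ℂ → ℂ := fun z => ⟪w, G V z w⟫_ℂ with hF
  have hFim : ∀ z : ℂ, 0 < z.im → 0 < (F z).im := by
    intro z hz
    rw [hF]; simp only
    rw [hG.im_inner hz.ne']
    have h1 : G V z w ≠ 0 := fun h => hw (hG.inj z hz.ne' w h)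
    have h2 : 0 < ‖G V z w‖ := norm_pos_iff.2 h1
    positivity
  set g : ℂ → ℂ := fun z => (-Complex.I * F z) ^ (((2 : ℕ) : ℂ)⁻¹) with hg
  have hre : ∀ z : ℂ, 0 < z.im → 0 < (-Complex.I * F z).re := by
    intro z hz
    have := hFim z hz
    simpa using this
  have hgn : ∀ z : ℂ, 0 < z.im → ‖g z‖ = Real.sqrt ‖F z‖ := by
    intro z hz
    rw [hg]; simp only
    rw [(re_sqrt (hre z hz)).2, norm_mul, norm_neg, Complex.norm_I, one_mul]
  have hgre : ∀ z : ℂ, 0 < z.im → Real.sqrt ‖F z‖ ≤ Real.sqrt 2 * (g z).re := by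
    intro z hz
    have := (re_sqrt (hre z hz)).1
    rw [norm_mul, norm_neg, Complex.norm_I, one_mul] at this
    exact this
  have hFn : ∀ z : ℂ, 0 < z.im → ‖F z‖ ≤ z.im⁻¹ * ‖w‖ ^ 2 := by
    intro z hz
    refine (norm_inner_le_norm _ _).trans ?_
    have h1 := hG.norm_le' hz.ne' w
    rw [abs_of_pos hz] at h1
    have h2 := norm_nonneg w
    nlinarith
  have hgd : ∀ z : ℂ, 0 < z.im → DifferentiableAt ℂ g z := by
    intro z hz
    have h1 : DifferentiableAt ℂ (fun z => -Complex.I * F z) z :=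
      (hG.hasDerivAt_inner hz.ne' w w).differentiableAt.const_mul _
    exact h1.cpow_const (Or.inl (hre z hz))
  have hgb : ∀ z : ℂ, ε ≤ z.im → ‖g z‖ ≤ Real.sqrt (ε⁻¹ * ‖w‖ ^ 2) := by
    intro z hz
    have hz0 := hε.trans_le hz
    rw [hgn z hz0]
    apply Real.sqrt_le_sqrt
    refine (hFn z hz0).trans ?_
    gcongr
  obtain ⟨hi, hint⟩ := poisson_line hε hgd hgb
  have hmeas : Measurable fun E : ℝ => ENNReal.ofReal (1 + E ^ 2)⁻¹ := by fun_prop
  have hzc : ∀ E : ℝ, 0 < (zz ε E).im := fun E => by rw [zz_im]; exact hε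
  rw [lam, lintegral_withDensity_eq_lintegral_mul_non_measurable _ hmeas
    (Eventually.of_forall fun E => ENNReal.ofReal_lt_top)]
  have hre_int := hi.re.const_mul (Real.sqrt 2)
  have hnn : 0 ≤ᵐ[volume] fun E : ℝ =>
      Real.sqrt 2 * RCLike.re (g (zz ε E) * (((1 + E ^ 2)⁻¹ : ℝ) : ℂ)) := by
    refine Eventually.of_forall fun E => ?_
    change 0 ≤ Real.sqrt 2 * (g (zz ε E) * (((1 + E ^ 2)⁻¹ : ℝ) : ℂ)).re
    rw [Complex.re_mul_ofReal, ← mul_assoc]
    have h1 := hgre _ (hzc E)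
    have h2 := Real.sqrt_nonneg ‖F (zz ε E)‖
    have h3 : 0 ≤ (1 + E ^ 2)⁻¹ := by positivity
    exact mul_nonneg (h2.trans h1) h3
  calc _ ≤ ∫⁻ E : ℝ, ENNReal.ofReal
        (Real.sqrt 2 * RCLike.re (g (zz ε E) * (((1 + E ^ 2)⁻¹ : ℝ) : ℂ))) := by
        refine lintegral_mono fun E => ?_
        simp only [Pi.mul_apply]
        rw [← ENNReal.ofReal_mul (by positivity)]
        apply ENNReal.ofReal_le_ofReal
        change _ ≤ Real.sqrt 2 * (g (zz ε E) * (((1 + E ^ 2)⁻¹ : ℝ) : ℂ)).re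
        rw [Complex.re_mul_ofReal, ← mul_assoc, mul_comm]
        exact mul_le_mul_of_nonneg_right (hgre _ (hzc E)) (by positivity)
    _ = ENNReal.ofReal (Real.sqrt 2 * (Real.pi * g (zz (1 + ε) 0)).re) := by
        rw [← ofReal_integral_eq_lintegral_ofReal hre_int hnn, integral_const_mul,
          integral_re hi, hint]
        rfl
    _ ≤ _ := by
        apply ENNReal.ofReal_le_ofReal
        have h0 : 0 < (zz (1 + ε) 0).im := by rw [zz_im]; linarith
        have h1 : (g (zz (1 + ε) 0)).re ≤ ‖w‖ := by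
          refine (Complex.re_le_norm _).trans ?_
          rw [hgn _ h0]
          rw [Real.sqrt_le_left (norm_nonneg _)]
          refine (hFn _ h0).trans ?_
          rw [zz_im]
          have : (1 + ε)⁻¹ ≤ 1 := inv_le_one_of_one_le₀ (by linarith)
          nlinarith [sq_nonneg ‖w‖]
        rw [Complex.re_ofReal_mul, mul_assoc]
        gcongr

end Pool.Agent.QE
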